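import Pool.Agent.Q16.Basis.Main

set_option autoImplicit false

namespace Pool.Agent.Results.MP_2f8e94_al.FiniteBasis

open Pool.Agent.Q16.Basis

universe u₁ u₂ u₃ u₄

/-- For finite rings `RA`, `RB`, modules `A`, `B` over them and every finite set `F` of finitary
operations from `A` to `B`, the two-sorted algebra `𝕄(A, B, F)` has a finite equational basis. -/
theorem result (RA : Type u₁) (RB : Type u₂) [Ring RA] [Finite RA] [Ring RB] [Finite RB]
    (A : Type u₃) (B : Type u₄) [AddCommGroup A] [Module RA A] [AddCommGroup B] [Module RB B]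
    (F : Set (Σ n : ℕ, (Fin n → A) → B)) (hF : F.Finite) :
    (setAlg RA RB F).HasFiniteBasis := by
  have : Finite F := hF
  exact main (RA := RA) (RB := RB) (ar := fun g : F => g.1.1) (fun g : F => g.1.2)

end Pool.Agent.Results.MP_2f8e94_al.FiniteBasis
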